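import Pool.Agent.AT5.Stmts1
import Pool.Agent.Helper88_AT3.Loc
import Pool.Agent.Helper97_K9.NZA

/-!
Squad AT5, row LBX: the local block.
-/

open scoped BigOperators

set_option autoImplicit false

noncomputable section

namespace Pool.Agent.PP.T5.H77

open Pool.Agent.Helper51_AWC Pool.Agent.Helper79_WRA Pool.Agent.PP Pool.Agent.PP.KF
open Pool.Agent.PP.K9 Pool.Agent.PP.K9.H97 Pool.Agent.PP.H75 Pool.Agent.PP.T3 Pool.Agent.PP.T2

attribute [local instance] Ideal.Quotient.field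

theorem card_sub {G : Type} [Group G] {V C : Subgroup G} (h : V ≤ C) :
    Nat.card (V.subgroupOf C) = Nat.card V :=
  Nat.card_congr (Subgroup.subgroupOfEquivOfLe h).toEquiv

theorem lbx : LbxStmt := by
  intro ℓ _ M _ hM G _ _ e V u he htp huV hcen
  have hF : GoodF ℓ (FF M) := H50.fld ℓ Fact.out M hM
  have hVC : V ≤ Cu u := fun v hv => Subgroup.mem_centralizer_singleton_iff.2 (hcen v hv)
  have hel : El ℓ u := T3.H88.el_of_mem htp.pg huV
  have hid : IsIdem (fun t : Cu u => e t) := T3.H88.idem_cu hF he.1 hel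
  have hcc : Subgroup.centralizer (V : Set G) ≤ Cu u := T3.H88.cent_le_cu huV
  refine ⟨?_, ?_⟩
  · obtain ⟨g, hg1, hg2⟩ := htp.gd
    obtain ⟨b, hb1, hb2, hb3⟩ := KF.H69.exists_blk hid (g := ⟨g, hcc hg1⟩) hg2
    have hres : (fun t : Cu u => H75.ext0 (Cu u) b t) = b := funext (ext0_apply _ b)
    refine ⟨H75.ext0 (Cu u) b, ⟨he, htp, huV, hcen, ⟨ext0_supp _ b, ?_⟩, ?_, ?_⟩⟩
    · rw [hres]; exact hb1
    · rw [hres]; exact hb2
    · refine ⟨g, hg1, ?_⟩
      have h := ext0_apply (Cu u) b ⟨g, hcc hg1⟩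
      change H75.ext0 (Cu u) b g = _ at h
      rw [h]
      exact hb3
  · intro b hb
    refine ⟨⟨?_, ?_, ?_⟩, card_sub hVC⟩
    · exact htp.pg.comap_of_injective (Cu u).subtype (Cu u).subtype_injective
    · obtain ⟨g, hg1, hg2⟩ := hb.gd
      refine ⟨⟨g, hcc hg1⟩, ?_, hg2⟩
      rw [Subgroup.mem_centralizer_iff]
      intro v hv
      exact Subtype.ext (Subgroup.mem_centralizer_iff.1 hg1 v (Subgroup.mem_subgroupOf.1 hv))
    · intro Q hQ hgd
      have h1 : Gd (fun t : Cu u => e t) Q :=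
        gd_of_mul hF hid.1 hb.bx.blk.1.1 hb.und hQ hgd
      have h2 := gd_map h1
      have h3 := htp.mx (Q.map (Cu u).subtype) (hQ.map _) h2
      rw [card_sub hVC]
      rwa [Subgroup.card_map_of_injective (Cu u).subtype_injective] at h3

end Pool.Agent.PP.T5.H77
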